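import Mathlib

/-!
# Rsl: definitions

`Gd` is the certificate property of an exponent `u - w` for a multiplier `k`.  The functions below are evaluated by the
kernel: they use the recursors directly, `fz` forces the evaluation of an argument, literals are raw.
-/

set_option autoImplicit false

namespace Pool.Agent.Helper78.Rsl

/-- Every odd prime `q` dividing `k * 2 ^ u - 2 ^ w` has an order of `2` divisible by a prime `≥ L`. -/
def Gd (L k u w : ℕ) : Prop :=
  ∀ q : ℕ, q.Prime → q ≠ 2 → (q : ℤ) ∣ (k : ℤ) * 2 ^ u - 2 ^ w → ∃ l : ℕ, l.Prime ∧ L ≤ l ∧ l ∣ orderOf (2 : ZMod q)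

/-- Force the evaluation of `n`. -/
noncomputable def fz {α : Type} (n : ℕ) (f : ℕ → α) : α :=
  Nat.rec (motive := fun _ => α) (f (nat_lit 0)) (fun m _ => f (Nat.add m (nat_lit 1))) n

/-- Case distinction. -/
noncomputable def ifB {α : Type} (b : Bool) (x y : α) : α := Bool.rec (motive := fun _ => α) y x b

/-- Digits of `e` in base `U`, the `c` lowest ones, most significant first. -/
noncomputable def lp (U : ℕ) (step : ℕ → ℕ → ℕ) (c e : ℕ) : ℕ → ℕ :=
  Nat.rec (motive := fun _ => ℕ → ℕ) (fun acc => acc)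
    (fun i ih acc => fz (Nat.mod (Nat.div e (Nat.pow U i)) U) fun d => fz (step d acc) ih) c

/-- One step of the power. -/
def st0 (W n b d acc : ℕ) : ℕ := Nat.mod (Nat.mul (Nat.pow acc W) (Nat.pow b d)) n

/-- Power modulo `n`, small exponents. -/
noncomputable def pw1 (n b e : ℕ) : ℕ :=
  lp (nat_lit 256) (st0 (nat_lit 256) n b) (Nat.add (Nat.div (Nat.log2 e) (nat_lit 8)) (nat_lit 1)) e (nat_lit 1)

/-- Power modulo `n`, large exponents, `W ^ c = 2 ^ 64`. -/
noncomputable def pw2 (W c n b e : ℕ) : ℕ :=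
  lp (nat_lit 18446744073709551616) (lp W (st0 W n b) c) (Nat.add (Nat.div (Nat.log2 e) (nat_lit 64)) (nat_lit 1)) e
    (nat_lit 1)

/-- The check of a number `n` with `2 ^ T = 1` modulo `n`; `M` is divisible by all small primes. -/
noncomputable def chkG (pwf : ℕ → ℕ → ℕ → ℕ) (M n T : ℕ) : Bool :=
  fz (Nat.div T (Nat.gcd (Nat.mod (Nat.pow (Nat.mod M T) (nat_lit 256)) T) T)) fun r =>
    fz (Nat.div T r) fun s => fz (pwf n (nat_lit 2) s) fun y =>
      ifB (Nat.beq (Nat.gcd (Nat.sub y (nat_lit 1)) n) (nat_lit 1))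
        (ifB (Nat.beq (Nat.gcd M r) (nat_lit 1)) (Nat.beq (pwf n y r) (nat_lit 1)) false) false

/-- The number to be checked: `k * 2 ^ (c / 2) - 1` for odd `c`, `|2 ^ (c / 2) - k|` for even `c`. -/
noncomputable def nOf (k c : ℕ) : ℕ :=
  ifB (Nat.beq (Nat.mod c (nat_lit 2)) (nat_lit 1))
    (Nat.sub (Nat.mul k (Nat.pow (nat_lit 2) (Nat.div c (nat_lit 2)))) (nat_lit 1))
    (Nat.add (Nat.sub (Nat.pow (nat_lit 2) (Nat.div c (nat_lit 2))) k) (Nat.sub k (Nat.pow (nat_lit 2) (Nat.div c (nat_lit 2)))))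

/-- The check of `k` with a code of one byte. -/
noncomputable def chk1 (M k c : ℕ) : Bool :=
  fz (nOf k c) fun n => ifB (Nat.beq n (nat_lit 1)) true (chkG pw1 M n (Nat.sub n (nat_lit 1)))

/-- Windows for large numbers. -/
noncomputable def pwK (kd : ℕ) : ℕ → ℕ → ℕ → ℕ :=
  ifB (Nat.beq kd (nat_lit 0)) (pw2 (nat_lit 256) (nat_lit 8))
    (ifB (Nat.beq kd (nat_lit 1)) (pw2 (nat_lit 4) (nat_lit 32)) (pw2 (nat_lit 2) (nat_lit 64)))

/-- The check of `k` with the code `c + 2 ^ 16 * kd + 2 ^ 18 * T`, `T = 0` means `n - 1`. -/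
noncomputable def chk2 (M k h : ℕ) : Bool :=
  fz (nOf k (Nat.mod h (nat_lit 65536))) fun n =>
    fz (ifB (Nat.beq (Nat.div h (nat_lit 262144)) (nat_lit 0)) (Nat.sub n (nat_lit 1)) (Nat.div h (nat_lit 262144))) fun T =>
      chkG (pwK (Nat.mod (Nat.div h (nat_lit 65536)) (nat_lit 4))) M n T

/-- Membership in a list. -/
noncomputable def memB (k : ℕ) : List ℕ → Bool :=
  List.rec (motive := fun _ => Bool) false (fun x _ ih => ifB (Nat.beq x k) true ih)

/-- The check of `k` with the code `h`; `h = 0` is allowed for the members of `ex`. -/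
noncomputable def chkE (ex : List ℕ) (M k h : ℕ) : Bool := ifB (Nat.beq h (nat_lit 0)) (memB k ex) (chk2 M k h)

/-- The multipliers `k, k + 2, …` with the codes `cs` (one byte each), exceptional ones in the list. -/
noncomputable def run (ex : List ℕ) (M : ℕ) (f : ℕ) : ℕ → ℕ → List ℕ → Bool :=
  Nat.rec (motive := fun _ => ℕ → ℕ → List ℕ → Bool) (fun _ _ _ => true)
    (fun _ ih k cs hs => fz (Nat.mod cs (nat_lit 256)) fun c =>
      ifB (Nat.beq c (nat_lit 0))
        (List.rec (motive := fun _ => Bool) false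
          (fun h hs' _ => ifB (chkE ex M k h) (fz (Nat.add k (nat_lit 2)) fun k' => fz (Nat.div cs (nat_lit 256)) fun cs' => ih k' cs' hs') false) hs)
        (ifB (chk1 M k c) (fz (Nat.add k (nat_lit 2)) fun k' => fz (Nat.div cs (nat_lit 256)) fun cs' => ih k' cs' hs) false)) f

end Pool.Agent.Helper78.Rsl
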