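import Mathlib
import Pool.Agent.Helper78.Rsl.Defs

/-!
# Rsl: a good exponent excludes small covering sets
-/

set_option autoImplicit false

namespace Pool.Agent.Helper78.Rsl

/-- Smooth and rough part. -/
private theorem split (B : ℕ) : ∀ N : ℕ, N ≠ 0 → ∃ Q R : ℕ, N = Q * R ∧ Q ≠ 0 ∧ R ≠ 0 ∧
    (∀ l : ℕ, l.Prime → l ∣ Q → l < B) ∧ (∀ l : ℕ, l.Prime → l ∣ R → B ≤ l) := by
  intro N
  induction N using Nat.strong_induction_on with
  | _ N ih =>
    intro hN
    by_cases h1 : N = 1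
    · refine ⟨1, 1, by omega, one_ne_zero, one_ne_zero, ?_, ?_⟩
      · intro l hl hd
        exact absurd (Nat.dvd_one.1 hd) hl.one_lt.ne'
      · intro l hl hd
        exact absurd (Nat.dvd_one.1 hd) hl.one_lt.ne'
    · have hp := Nat.minFac_prime h1
      obtain ⟨t, ht⟩ := Nat.minFac_dvd N
      have ht0 : t ≠ 0 := by
        rintro rfl
        exact hN (by rw [ht, mul_zero])
      have htN : t < N := by
        rw [ht]
        have := hp.one_lt
        have : 0 < t := Nat.pos_of_ne_zero ht0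
        nlinarith
      obtain ⟨Q, R, e, hQ0, hR0, hQ, hR⟩ := ih t htN ht0
      rcases lt_or_ge N.minFac B with h | h
      · refine ⟨N.minFac * Q, R, ?_, mul_ne_zero hp.ne_zero hQ0, hR0, ?_, hR⟩
        · rw [mul_assoc, ← e]
          exact ht
        · intro l hl hd
          rcases (Nat.Prime.dvd_mul hl).1 hd with h2 | h2
          · rw [(Nat.prime_dvd_prime_iff_eq hl hp).1 h2]
            exact h
          · exact hQ l hl h2
      · refine ⟨Q, N.minFac * R, ?_, hQ0, mul_ne_zero hp.ne_zero hR0, hQ, ?_⟩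
        · rw [mul_left_comm, ← e]
          exact ht
        · intro l hl hd
          rcases (Nat.Prime.dvd_mul hl).1 hd with h2 | h2
          · rw [(Nat.prime_dvd_prime_iff_eq hl hp).1 h2]
            exact h
          · exact hR l hl h2

private theorem smooth_dvd {B Q R d : ℕ} (hR : ∀ l : ℕ, l.Prime → l ∣ R → B ≤ l) (hd : d ∣ Q * R)
    (h : ∀ l : ℕ, l.Prime → l ∣ d → l < B) : d ∣ Q := by
  refine Nat.Coprime.dvd_of_dvd_mul_right ?_ hd
  refine Nat.coprime_of_dvd fun l hl h1 h2 => ?_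
  have a := h l hl h1
  have b := hR l hl h2
  omega

private theorem pow_eq {p a b d : ℕ} (ho : orderOf (2 : ZMod p) ∣ d) (h : a ≡ b [MOD d]) :
    (2 : ZMod p) ^ a = 2 ^ b := by
  have h1 : a % orderOf (2 : ZMod p) = b % orderOf (2 : ZMod p) := h.of_dvd ho
  rw [← pow_mod_orderOf, h1, pow_mod_orderOf]

/-- divisibility in terms of residues -/
private theorem dvd_iff {k m p : ℕ} (hk : 1 ≤ k) : p ∣ k * 2 ^ m - 1 ↔ (k : ZMod p) * 2 ^ m = 1 := by
  have h1 : 1 ≤ k * 2 ^ m := Nat.one_le_iff_ne_zero.2 (mul_ne_zero (by omega) (by positivity))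
  rw [← ZMod.natCast_eq_zero_iff, Nat.cast_sub h1, sub_eq_zero]
  push_cast
  rfl

/-- The exponent `m` can be chosen step by step. -/
private theorem step_all {L k u w M N : ℕ} (hk : 1 ≤ k) (hN : N ≠ 0) (P : Finset ℕ)
    (hP : ∀ p ∈ P, p.Prime ∧ p ≠ 2 ∧ orderOf (2 : ZMod p) ∣ N) (hG : Gd L k u w)
    (hT : ∀ l : ℕ, l.Prime → L ≤ l → ∀ T ⊆ P, (∀ p ∈ T, l ∣ orderOf (2 : ZMod p) ∧
      ∀ r : ℕ, r.Prime → r ∣ orderOf (2 : ZMod p) → r ≤ l) → T.card < l)
    {QL RL : ℕ} (hQL : N = QL * RL) (hq : ∀ l : ℕ, l.Prime → l ∣ QL → l < L)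
    (hr : ∀ l : ℕ, l.Prime → l ∣ RL → L ≤ l) {B : ℕ} (hB : L ≤ B) :
    ∃ m, M ≤ m ∧ m + w ≡ u [MOD QL] ∧ ∀ p ∈ P, (∀ l : ℕ, l.Prime → l ∣ orderOf (2 : ZMod p) → l < B) →
      ¬ p ∣ k * 2 ^ m - 1 := by
  classical
  have hQL0 : QL ≠ 0 := by
    rintro rfl
    exact hN (by rw [hQL, zero_mul])
  induction B, hB using Nat.le_induction with
  | base =>
    refine ⟨u + w * (QL - 1) + QL * M, ?_, ?_, ?_⟩
    · have : 1 ≤ QL := Nat.one_le_iff_ne_zero.2 hQL0
      nlinarith [Nat.zero_le u, Nat.zero_le (w * (QL - 1))]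
    · have h1 : u + w * (QL - 1) + QL * M + w = u + QL * (w + M) := by
        obtain ⟨s, rfl⟩ : ∃ s, QL = s + 1 := ⟨QL - 1, by omega⟩
        rw [Nat.add_sub_cancel]
        ring
      rw [h1]
      unfold Nat.ModEq
      rw [Nat.add_mul_mod_self_left]
    · intro p hp hs hd
      obtain ⟨hp1, hp2, hp3⟩ := hP p hp
      have hQ : orderOf (2 : ZMod p) ∣ QL := smooth_dvd hr (hQL ▸ hp3) hs
      rw [dvd_iff hk] at hd
      have h1 : u + w * (QL - 1) + QL * M + w ≡ u [MOD QL] := by
        have h1 : u + w * (QL - 1) + QL * M + w = u + QL * (w + M) := by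
          obtain ⟨s, rfl⟩ : ∃ s, QL = s + 1 := ⟨QL - 1, by omega⟩
          rw [Nat.add_sub_cancel]
          ring
        rw [h1]
        unfold Nat.ModEq
        rw [Nat.add_mul_mod_self_left]
      have h2 := pow_eq (p := p) hQ h1
      have h3 : (k : ZMod p) * 2 ^ u = 2 ^ w := by
        rw [← h2, pow_add, ← mul_assoc, hd, one_mul]
      have h4 : (p : ℤ) ∣ (k : ℤ) * 2 ^ u - 2 ^ w := by
        rw [← ZMod.intCast_zmod_eq_zero_iff_dvd]
        push_cast
        rw [h3, sub_self]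
      obtain ⟨l, hl, hl1, hl2⟩ := hG p hp1 hp2 h4
      have := hs l hl hl2
      omega
  | succ B hLB ih =>
    obtain ⟨m, hm1, hm2, hm3⟩ := ih
    by_cases hBp : B.Prime
    · obtain ⟨Q, R, hQR, hQ0, hR0, hQ, hR⟩ := split B N hN
      have hQLQ : QL ∣ Q := smooth_dvd hR (hQR ▸ hQL ▸ dvd_mul_right QL RL) fun l hl h => lt_of_lt_of_le (hq l hl h) hLB
      set T := P.filter fun p => B ∣ orderOf (2 : ZMod p) ∧
        ∀ r : ℕ, r.Prime → r ∣ orderOf (2 : ZMod p) → r ≤ B with hTdef
      -- the forbidden values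
      have hmain : ∃ y < B, ∀ p ∈ T, ¬ p ∣ k * 2 ^ (m + Q * y) - 1 := by
        by_contra hcon
        push Not at hcon
        choose! g hg1 hg2 using hcon
        have hinj : Set.InjOn g (Finset.range B) := by
          intro y hy y' hy' hyy
          rw [Finset.coe_range, Set.mem_Iio] at hy hy'
          have key : ∀ a b : ℕ, a < B → b < B → g a = g b → a < b → False := by
            intro a b ha hb hab hlt
            have h1 := hg2 a ha
            have h2 := hg2 b hb
            rw [dvd_iff hk] at h1 h2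
            rw [← hab] at h2
            obtain ⟨hp1, hp2, hp3⟩ := hP _ (Finset.mem_filter.1 (hg1 a ha)).1
            have hBo := (Finset.mem_filter.1 (hg1 a ha)).2.1
            have := Fact.mk hp1
            have h20 : (2 : ZMod (g a)) ≠ 0 := by
              intro h0
              have h00 : ((2 : ℕ) : ZMod (g a)) = 0 := by exact_mod_cast h0
              rw [ZMod.natCast_eq_zero_iff] at h00
              exact hp2 ((Nat.prime_dvd_prime_iff_eq hp1 Nat.prime_two).1 h00)
            have hk0 : (k : ZMod (g a)) ≠ 0 := by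
              intro h0
              rw [h0, zero_mul] at h1
              exact zero_ne_one h1
            have h3 : (2 : ZMod (g a)) ^ (m + Q * a) = 2 ^ (m + Q * b) := mul_left_cancel₀ hk0 (h1.trans h2.symm)
            rw [show m + Q * b = (m + Q * a) + Q * (b - a) by
              obtain ⟨c, rfl⟩ := Nat.exists_eq_add_of_lt hlt
              rw [show a + c + 1 - a = c + 1 by omega]
              ring, pow_add _ (m + Q * a)] at h3
            have h5 : (2 : ZMod (g a)) ^ (Q * (b - a)) = 1 := by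
              have h6 : (2 : ZMod (g a)) ^ (m + Q * a) ≠ 0 := pow_ne_zero _ h20
              have h7 : (2 : ZMod (g a)) ^ (m + Q * a) * 1 = 2 ^ (m + Q * a) * 2 ^ (Q * (b - a)) := by
                rw [mul_one]
                exact h3
              exact (mul_left_cancel₀ h6 h7).symm
            have h8 : B ∣ Q * (b - a) := hBo.trans (orderOf_dvd_of_pow_eq_one h5)
            rcases (Nat.Prime.dvd_mul hBp).1 h8 with h9 | h9
            · exact absurd (hQ B hBp h9) (lt_irrefl _)
            · have := Nat.le_of_dvd (by omega) h9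
              omega
          rcases lt_trichotomy y y' with h | h | h
          · exact (key y y' hy hy' hyy h).elim
          · exact h
          · exact (key y' y hy' hy hyy.symm h).elim
        have hcard : (Finset.range B).card ≤ T.card := by
          refine Finset.card_le_card_of_injOn g ?_ hinj
          intro y hy
          exact hg1 y (Finset.mem_range.1 hy)
        rw [Finset.card_range] at hcard
        have := hT B hBp hLB T (Finset.filter_subset _ _) fun p hp => (Finset.mem_filter.1 hp).2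
        omega
      obtain ⟨y, hy, hy2⟩ := hmain
      refine ⟨m + Q * y, by omega, ?_, ?_⟩
      · have h1 : m + Q * y + w ≡ m + w [MOD QL] := by
          obtain ⟨c, rfl⟩ := hQLQ
          unfold Nat.ModEq
          rw [show m + QL * c * y + w = m + w + QL * (c * y) by ring, Nat.add_mul_mod_self_left]
        exact h1.trans hm2
      · intro p hp hs
        by_cases hBo : B ∣ orderOf (2 : ZMod p)
        · refine hy2 p (Finset.mem_filter.2 ⟨hp, hBo, fun r hr hro => ?_⟩)
          have := hs r hr hro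
          omega
        · have hs' : ∀ l : ℕ, l.Prime → l ∣ orderOf (2 : ZMod p) → l < B := by
            intro l hl hlo
            have h1 := hs l hl hlo
            rcases (show l = B ∨ l < B by omega) with h2 | h2
            · exact absurd (h2 ▸ hlo) hBo
            · exact h2
          obtain ⟨hp1, hp2, hp3⟩ := hP p hp
          have hoQ : orderOf (2 : ZMod p) ∣ Q := smooth_dvd hR (hQR ▸ hp3) hs'
          have h1 := hm3 p hp hs'
          rw [dvd_iff hk] at h1 ⊢
          have h2 : (2 : ZMod p) ^ (m + Q * y) = 2 ^ m := by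
            refine pow_eq hoQ ?_
            unfold Nat.ModEq
            rw [Nat.add_mul_mod_self_left]
          rw [h2]
          exact h1
    · refine ⟨m, hm1, hm2, fun p hp hs => hm3 p hp fun l hl hlo => ?_⟩
      have h1 := hs l hl hlo
      rcases (show l = B ∨ l < B by omega) with h2 | h2
      · exact absurd (h2 ▸ hl) hBp
      · exact h2

/-- If `k * 2 ^ m` is a perfect power, then so is `k`, with an exponent dividing `m`. -/
private theorem pp_of {k m b c : ℕ} (hk : Odd k) (hb : 2 ≤ b) (h : k * 2 ^ m = c ^ b) :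
    ∃ r e : ℕ, r.Prime ∧ r ∣ m ∧ k = e ^ r := by
  have hr := Nat.minFac_prime (show b ≠ 1 by omega)
  obtain ⟨t, ht⟩ := Nat.minFac_dvd b
  set r := b.minFac with hrdef
  have h1 : k * 2 ^ m = (c ^ t) ^ r := by
    rw [← pow_mul, mul_comm t r, ← ht]
    exact h
  have hk0 : k ≠ 0 := by
    rintro rfl
    exact (Nat.not_odd_zero) hk
  have hc0 : c ^ t ≠ 0 := by
    intro h0
    rw [h0, zero_pow hr.ne_zero] at h1
    exact hk0 ((mul_eq_zero.1 h1).resolve_right (by positivity))
  obtain ⟨v, e, he, hce⟩ := Nat.exists_eq_two_pow_mul_odd hc0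
  rw [hce, mul_pow, ← pow_mul] at h1
  have hodd : Odd (e ^ r) := he.pow
  have hmm : m = v * r := by
    have h2 : ∀ (x y a b : ℕ), Odd x → Odd y → x * 2 ^ a = 2 ^ b * y → a ≤ b → a = b := by
      intro x y a b hx hy hxy hab
      by_contra hne
      obtain ⟨d, rfl⟩ := Nat.exists_eq_add_of_lt (lt_of_le_of_ne hab hne)
      rw [show a + d + 1 = a + (d + 1) by ring, pow_add, mul_comm x, mul_assoc] at hxy
      have h3 := Nat.eq_of_mul_eq_mul_left (show 0 < 2 ^ a by positivity) hxy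
      rw [h3, pow_succ] at hx
      rw [mul_assoc, mul_left_comm] at hx
      exact (Nat.not_odd_iff_even.2 (even_two_mul _)) hx
    rcases le_total m (v * r) with h3 | h3
    · exact h2 k (e ^ r) m (v * r) hk hodd h1 h3
    · refine (h2 (e ^ r) k (v * r) m hodd hk ?_ h3).symm
      rw [mul_comm, ← h1, mul_comm]
  refine ⟨r, e, hr, ⟨v, by rw [hmm, mul_comm]⟩, ?_⟩
  rw [hmm, mul_comm] at h1
  exact Nat.eq_of_mul_eq_mul_left (show 0 < 2 ^ (v * r) by positivity) h1

theorem noCover {L k u w : ℕ} (hL : 11 < L) (hk : Odd k) (hk1 : k ≠ 1) (hk2 : k < 509203) (huw : u = 0 ∨ w = 0)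
    (hG : Gd L k u w) (hpp : ∀ r ∈ ({2, 3, 5, 7, 11} : Finset ℕ), (∃ e, k = e ^ r) → ¬ r ∣ u + w)
    (P : Finset ℕ) (hP : ∀ p ∈ P, p.Prime) {M : ℕ}
    (hcov : ∀ m, M ≤ m → (∃ b c : ℕ, 2 ≤ b ∧ 2 < c ∧ k * 2 ^ m = c ^ b) ∨ ∃ p ∈ P, p ∣ k * 2 ^ m - 1) :
    ∃ l : ℕ, l.Prime ∧ L ≤ l ∧ ∃ T ⊆ P, l ≤ T.card ∧ ∀ p ∈ T, l ∣ orderOf (2 : ZMod p) ∧
      ∀ r : ℕ, r.Prime → r ∣ orderOf (2 : ZMod p) → r ≤ l := by
  classical
  by_contra hcon
  push Not at hcon
  have hk0 : 1 ≤ k := hk.pos
  set P' := P.filter fun p => p ≠ 2 with hP'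
  set N := 2310 * ∏ p ∈ P', (p - 1) with hN
  have hN0 : N ≠ 0 := by
    rw [hN]
    refine mul_ne_zero (by norm_num) (Finset.prod_ne_zero_iff.2 fun p hp => ?_)
    have := (hP p (Finset.mem_filter.1 hp).1).two_le
    have h2 := (Finset.mem_filter.1 hp).2
    omega
  have hPP : ∀ p ∈ P', p.Prime ∧ p ≠ 2 ∧ orderOf (2 : ZMod p) ∣ N := by
    intro p hp
    have hpp := hP p (Finset.mem_filter.1 hp).1
    have h2 := (Finset.mem_filter.1 hp).2
    refine ⟨hpp, h2, ?_⟩
    have := Fact.mk hpp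
    have h20 : (2 : ZMod p) ≠ 0 := by
      intro h0
      have h00 : ((2 : ℕ) : ZMod p) = 0 := by exact_mod_cast h0
      rw [ZMod.natCast_eq_zero_iff] at h00
      exact h2 ((Nat.prime_dvd_prime_iff_eq hpp Nat.prime_two).1 h00)
    have h3 : orderOf (2 : ZMod p) ∣ p - 1 := orderOf_dvd_of_pow_eq_one (ZMod.pow_card_sub_one_eq_one h20)
    exact h3.trans ((Finset.dvd_prod_of_mem (fun p => p - 1) hp).trans (Dvd.intro_left _ rfl))
  obtain ⟨QL, RL, e, hQ0, hR0, hQ, hR⟩ := split L N hN0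
  have hT : ∀ l : ℕ, l.Prime → L ≤ l → ∀ T ⊆ P', (∀ p ∈ T, l ∣ orderOf (2 : ZMod p) ∧
      ∀ r : ℕ, r.Prime → r ∣ orderOf (2 : ZMod p) → r ≤ l) → T.card < l := by
    intro l hl hLl T hTP hTT
    by_contra hge
    push Not at hge
    obtain ⟨p, hp, hp2⟩ := hcon l hl hLl T (hTP.trans (Finset.filter_subset _ _)) hge
    obtain ⟨h2, h3⟩ := hTT p hp
    obtain ⟨r, hr1, hr2, hr3⟩ := hp2 h2
    have := h3 r hr1 hr2
    omega
  obtain ⟨m, hm1, hm2, hm3⟩ := step_all (M := M + 1) hk0 hN0 P' hPP hG hT e hQ hR (B := max L (N + 1)) (le_max_left _ _)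
  have hm4 : ¬ ∃ p ∈ P, p ∣ k * 2 ^ m - 1 := by
    rintro ⟨p, hp, hd⟩
    by_cases h2 : p = 2
    · rw [h2] at hd
      obtain ⟨m', rfl⟩ : ∃ m', m = m' + 1 := ⟨m - 1, by omega⟩
      have h3 : 2 ∣ k * 2 ^ (m' + 1) := Dvd.intro_left (k * 2 ^ m') (by ring)
      have h4 : 1 ≤ k * 2 ^ (m' + 1) := Nat.one_le_iff_ne_zero.2 (mul_ne_zero (by omega) (by positivity))
      omega
    · refine hm3 p (Finset.mem_filter.2 ⟨hp, h2⟩) (fun l hl hlo => ?_) hd
      have h3 := Nat.le_of_dvd (Nat.pos_of_ne_zero hN0) (hlo.trans (hPP p (Finset.mem_filter.2 ⟨hp, h2⟩)).2.2)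
      exact lt_of_lt_of_le (Nat.lt_succ_of_le h3) (le_max_right _ _)
  rcases hcov m (by omega) with ⟨b, c, hb, hc, hbc⟩ | h
  · obtain ⟨r, e', hr, hrm, hke⟩ := pp_of hk hb hbc
    -- `r ≤ 11`
    have he3 : 3 ≤ e' := by
      have h1 : Odd e' := by
        rcases Nat.even_or_odd e' with h | h
        · exfalso
          have h2 : Even (e' ^ r) := (Nat.even_pow.2 ⟨h, hr.ne_zero⟩)
          rw [← hke] at h2
          exact (Nat.not_even_iff_odd.2 hk) h2
        · exact h
      have h2 : e' ≠ 1 := by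
        rintro rfl
        rw [one_pow] at hke
        exact hk1 hke
      obtain ⟨s, rfl⟩ := h1
      omega
    have hr12 : r < 12 := by
      by_contra hge
      push Not at hge
      have h1 : 3 ^ 12 ≤ e' ^ r := (Nat.pow_le_pow_left he3 12).trans (Nat.pow_le_pow_right (by omega) hge)
      have h2 : (3 : ℕ) ^ 12 = 531441 := by norm_num
      omega
    have hr5 : r ∈ ({2, 3, 5, 7, 11} : Finset ℕ) := by
      interval_cases r <;> first | (simp; done) | (exfalso; revert hr; norm_num; done)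
    refine hpp r hr5 ⟨e', hke⟩ ?_
    have hrQ : r ∣ QL := by
      refine smooth_dvd hR (e ▸ ?_) fun l hl hlr => ?_
      · refine Dvd.dvd.mul_right ?_ _
        fin_cases hr5 <;> norm_num
      · have := Nat.le_of_dvd hr.pos hlr
        omega
    have h1 : m + w ≡ u [MOD r] := hm2.of_dvd hrQ
    have h2 : w ≡ u [MOD r] := by
      have h3 : m + w ≡ 0 + w [MOD r] := Nat.ModEq.add_right _ ((Nat.modEq_zero_iff_dvd).2 hrm)
      rw [zero_add] at h3
      exact h3.symm.trans h1
    rcases huw with rfl | rfl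
    · rw [zero_add]
      exact (Nat.modEq_zero_iff_dvd).1 h2
    · rw [add_zero]
      exact (Nat.modEq_zero_iff_dvd).1 h2.symm
  · exact hm4 h

/-- `k = 1`: only finitely many Mersenne numbers with prime exponents have a divisor in a finite set. -/
theorem noCover_one (P : Finset ℕ) (hP : ∀ p ∈ P, p.Prime) {M : ℕ} :
    ∃ m, M ≤ m ∧ (¬ ∃ b c : ℕ, 2 ≤ b ∧ 2 < c ∧ 1 * 2 ^ m = c ^ b) ∧ ¬ ∃ p ∈ P, p ∣ 1 * 2 ^ m - 1 := by
  obtain ⟨m, hm1, hm2⟩ := Nat.exists_infinite_primes (M + 1 + ∑ p ∈ P, p)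
  refine ⟨m, by omega, ?_, ?_⟩
  · rintro ⟨b, c, hb, hc, h⟩
    rw [one_mul] at h
    obtain ⟨j, hj, rfl⟩ := (Nat.dvd_prime_pow Nat.prime_two).1 (show c ∣ 2 ^ m by rw [h]; exact dvd_pow_self c (by omega))
    rw [← pow_mul] at h
    have h1 := Nat.pow_right_injective (le_refl 2) h
    have h2 : 2 ≤ j := by
      by_contra hj2
      have : j = 0 ∨ j = 1 := by omega
      rcases this with rfl | rfl <;> norm_num at hc
    have h3 : b ∣ m := ⟨j, by rw [h1, mul_comm]⟩
    rcases (Nat.dvd_prime hm2).1 h3 with h4 | h4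
    · omega
    · rw [h4] at h1
      nlinarith [hm2.pos]
  · rintro ⟨p, hp, hd⟩
    have hpp := hP p hp
    have := Fact.mk hpp
    rw [dvd_iff le_rfl, Nat.cast_one, one_mul] at hd
    have h1 := orderOf_dvd_of_pow_eq_one hd
    have h20 : (2 : ZMod p) ≠ 0 := by
      intro h0
      rw [h0, zero_pow hm2.ne_zero] at hd
      exact zero_ne_one hd
    have h2 : orderOf (2 : ZMod p) ∣ p - 1 := orderOf_dvd_of_pow_eq_one (ZMod.pow_card_sub_one_eq_one h20)
    have h3 : p ≤ ∑ p ∈ P, p := Finset.single_le_sum (f := fun p => p) (fun _ _ => Nat.zero_le _) hp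
    rcases (Nat.dvd_prime hm2).1 h1 with h4 | h4
    · rw [orderOf_eq_one_iff] at h4
      have h5 : (1 : ZMod p) = 0 := by
        have h6 : (2 : ZMod p) - 1 = 0 := by rw [h4, sub_self]
        rw [← h6]
        norm_num
      exact one_ne_zero h5
    · rw [h4] at h2
      have := Nat.le_of_dvd (by have := hpp.two_le; omega) h2
      omega

end Pool.Agent.Helper78.Rsl
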