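import Mathlib
import Pool.Agent.Helper78.Rsl.Defs

/-!
# Rsl: soundness of the checks
-/

set_option autoImplicit false

namespace Pool.Agent.Helper78.Rsl

theorem fz_eq {α : Type} (n : ℕ) (f : ℕ → α) : fz n f = f n := by
  cases n <;> rfl

theorem ifB_true {b x y : Bool} (h : ifB b x y = true) : (b = true ∧ x = true) ∨ (b = false ∧ y = true) := by
  cases b
  · exact Or.inr ⟨rfl, h⟩
  · exact Or.inl ⟨rfl, h⟩

theorem ifB_and {b x : Bool} (h : ifB b x false = true) : b = true ∧ x = true := by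
  rcases ifB_true h with h1 | h1
  · exact h1
  · exact absurd h1.2 (by simp)

private theorem lp_zero (U : ℕ) (step : ℕ → ℕ → ℕ) (e acc : ℕ) : lp U step 0 e acc = acc := rfl

private theorem lp_succ (U : ℕ) (step : ℕ → ℕ → ℕ) (c e acc : ℕ) :
    lp U step (c + 1) e acc = lp U step c e (step (e / U ^ c % U) acc) := by
  have h : lp U step (c + 1) e acc =
      fz (Nat.mod (Nat.div e (Nat.pow U c)) U) fun d => fz (step d acc) (lp U step c e) := rfl
  rw [h, fz_eq, fz_eq]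
  rfl

private theorem lp_spec {U n b : ℕ} (hU : 0 < U) {step : ℕ → ℕ → ℕ}
    (hs : ∀ d < U, ∀ acc x, acc ≡ b ^ x [MOD n] → step d acc ≡ b ^ (x * U + d) [MOD n]) (c e : ℕ) :
    ∀ acc x, acc ≡ b ^ x [MOD n] → lp U step c e acc ≡ b ^ (x * U ^ c + e % U ^ c) [MOD n] := by
  induction c with
  | zero =>
    intro acc x h
    rw [lp_zero, pow_zero, Nat.mod_one, mul_one, add_zero]
    exact h
  | succ c ih =>
    intro acc x h
    rw [lp_succ]
    have h1 := ih _ _ (hs (e / U ^ c % U) (Nat.mod_lt _ hU) acc x h)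
    have h2 : (x * U + e / U ^ c % U) * U ^ c + e % U ^ c = x * U ^ (c + 1) + e % U ^ (c + 1) := by
      rw [Nat.mod_pow_succ]
      ring
    rw [h2] at h1
    exact h1

private theorem st0_spec (W n b : ℕ) : ∀ d < W, ∀ acc x, acc ≡ b ^ x [MOD n] →
    st0 W n b d acc ≡ b ^ (x * W + d) [MOD n] := by
  intro d _ acc x h
  have h1 : st0 W n b d acc = (acc ^ W * b ^ d) % n := rfl
  rw [h1]
  refine (Nat.mod_modEq _ _).trans ?_
  rw [pow_add, pow_mul]
  exact (h.pow W).mul_right _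

private theorem log_lt {e j : ℕ} (hj : 0 < j) : e < 2 ^ (j * (Nat.log2 e / j + 1)) := by
  refine lt_of_lt_of_le Nat.lt_log2_self (Nat.pow_le_pow_right (by norm_num) ?_)
  have h1 := Nat.div_add_mod (Nat.log2 e) j
  have h2 := Nat.mod_lt (Nat.log2 e) hj
  rw [mul_add, mul_one]
  omega

theorem pw1_spec (n b e : ℕ) : pw1 n b e ≡ b ^ e [MOD n] := by
  have h := lp_spec (U := 256) (n := n) (b := b) (by norm_num) (st0_spec 256 n b) (Nat.log2 e / 8 + 1) e 1 0
    (by rw [pow_zero])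
  rw [zero_mul, zero_add, Nat.mod_eq_of_lt] at h
  · exact h
  · have h1 := log_lt (e := e) (j := 8) (by norm_num)
    rw [pow_mul] at h1
    exact h1

theorem pw2_spec {W c : ℕ} (hW : W ^ c = 18446744073709551616) (hW0 : 0 < W) (n b e : ℕ) :
    pw2 W c n b e ≡ b ^ e [MOD n] := by
  have hst : ∀ d < 18446744073709551616, ∀ acc x, acc ≡ b ^ x [MOD n] →
      lp W (st0 W n b) c d acc ≡ b ^ (x * 18446744073709551616 + d) [MOD n] := by
    intro d hd acc x h
    have h1 := lp_spec hW0 (st0_spec W n b) c d acc x h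
    rw [hW, Nat.mod_eq_of_lt hd] at h1
    exact h1
  have h := lp_spec (U := 18446744073709551616) (n := n) (b := b) (by norm_num) hst (Nat.log2 e / 64 + 1) e 1 0
    (by rw [pow_zero])
  rw [zero_mul, zero_add, Nat.mod_eq_of_lt] at h
  · exact h
  · have h1 := log_lt (e := e) (j := 64) (by norm_num)
    rw [pow_mul] at h1
    exact h1

/-- all small primes divide `M` -/
def Sm (L M : ℕ) : Prop := ∀ p : ℕ, p.Prime → p < L → p ∣ M

theorem chkG_spec {L M : ℕ} (hM : Sm L M) (hL : 2 < L) {pwf : ℕ → ℕ → ℕ → ℕ}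
    (hp : ∀ n b e, pwf n b e ≡ b ^ e [MOD n]) {n T : ℕ} (h : chkG pwf M n T = true) {q : ℕ} (hq : q.Prime) (hqn : q ∣ n) :
    ∃ l : ℕ, l.Prime ∧ L ≤ l ∧ l ∣ orderOf (2 : ZMod q) := by
  unfold chkG at h
  rw [fz_eq] at h
  generalize Nat.div T (Nat.gcd (Nat.mod (Nat.pow (Nat.mod M T) (nat_lit 256)) T) T) = r at h
  rw [fz_eq, fz_eq] at h
  generalize Nat.div T r = s at h
  obtain ⟨h1, h2⟩ := ifB_and h
  obtain ⟨h3, h4⟩ := ifB_and h2
  have h1 := Nat.eq_of_beq_eq_true h1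
  have h3 := Nat.eq_of_beq_eq_true h3
  have h4 := Nat.eq_of_beq_eq_true h4
  have e1 := hp n 2 s
  have e2 := hp n (pwf n 2 s) r
  change Nat.gcd (pwf n 2 s - 1) n = 1 at h1
  change Nat.gcd M r = 1 at h3
  change pwf n (pwf n 2 s) r = 1 at h4
  rw [h4] at e2
  generalize pwf n 2 s = y at h1 e1 e2
  have := Fact.mk hq
  -- residues modulo `q`
  have f1 : (y : ZMod q) = 2 ^ s := by
    have := (ZMod.natCast_eq_natCast_iff y (2 ^ s) q).2 (e1.of_dvd hqn)
    rw [this]
    push_cast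
    rfl
  have f2 : (y : ZMod q) ^ r = 1 := by
    have := (ZMod.natCast_eq_natCast_iff 1 (y ^ r) q).2 (e2.of_dvd hqn)
    push_cast at this
    exact this.symm
  have hy0 : y ≠ 0 := by
    rintro rfl
    rw [Nat.zero_sub, Nat.gcd_zero_left] at h1
    rw [h1] at hqn
    exact hq.one_lt.ne' (Nat.dvd_one.1 hqn)
  have f3 : (y : ZMod q) ≠ 1 := by
    intro h5
    have h6 : ((y - 1 : ℕ) : ZMod q) = 0 := by
      rw [Nat.cast_sub (by omega), h5, Nat.cast_one, sub_self]
    rw [ZMod.natCast_eq_zero_iff] at h6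
    have h7 := Nat.dvd_gcd h6 hqn
    rw [h1] at h7
    exact hq.one_lt.ne' (Nat.dvd_one.1 h7)
  have hr0 : r ≠ 0 := by
    rintro rfl
    rw [Nat.gcd_zero_right] at h3
    have h5 := hM 2 Nat.prime_two hL
    rw [h3] at h5
    norm_num at h5
  have ho : orderOf (y : ZMod q) ≠ 1 := by
    rw [Ne, orderOf_eq_one_iff]
    exact f3
  have ho1 : orderOf (y : ZMod q) ∣ r := orderOf_dvd_of_pow_eq_one f2
  refine ⟨(orderOf (y : ZMod q)).minFac, Nat.minFac_prime ho, ?_, ?_⟩
  · by_contra hlt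
    push Not at hlt
    have h5 := hM _ (Nat.minFac_prime ho) hlt
    have h6 := Nat.dvd_gcd h5 ((Nat.minFac_dvd _).trans ho1)
    rw [h3] at h6
    exact (Nat.minFac_prime ho).one_lt.ne' (Nat.dvd_one.1 h6)
  · refine (Nat.minFac_dvd _).trans ?_
    rw [f1]
    exact orderOf_pow_dvd s

/-- the exponents of a code -/
def uu (c : ℕ) : ℕ := if c % 2 = 1 then c / 2 else 0

/-- the exponents of a code -/
def ww (c : ℕ) : ℕ := if c % 2 = 1 then 0 else c / 2

theorem uw (c : ℕ) : uu c = 0 ∨ ww c = 0 := by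
  unfold uu ww
  split_ifs
  · exact Or.inr rfl
  · exact Or.inl rfl

theorem uw_add (c : ℕ) : uu c + ww c = c / 2 := by
  unfold uu ww
  split_ifs <;> omega

theorem nOf_spec {k c q : ℕ} (hk : 1 ≤ k) (h : (q : ℤ) ∣ (k : ℤ) * 2 ^ uu c - 2 ^ ww c) : q ∣ nOf k c := by
  unfold nOf
  by_cases hc : c % 2 = 1
  · have h1 : Nat.beq (Nat.mod c (nat_lit 2)) (nat_lit 1) = true := by
      change Nat.beq (c % 2) 1 = true
      rw [hc]
      rfl
    rw [h1]
    change q ∣ k * 2 ^ (c / 2) - 1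
    unfold uu ww at h
    rw [if_pos hc, if_pos hc, pow_zero] at h
    have h2 : 1 ≤ k * 2 ^ (c / 2) := Nat.one_le_iff_ne_zero.2 (mul_ne_zero (by omega) (by positivity))
    have h3 : ((k * 2 ^ (c / 2) - 1 : ℕ) : ℤ) = (k : ℤ) * 2 ^ (c / 2) - 1 := by
      rw [Nat.cast_sub h2]
      push_cast
      rfl
    rw [← h3] at h
    exact_mod_cast h
  · have h1 : Nat.beq (Nat.mod c (nat_lit 2)) (nat_lit 1) = false := by
      change Nat.beq (c % 2) 1 = false
      have h2 : c % 2 = 0 := by omega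
      rw [h2]
      rfl
    rw [h1]
    change q ∣ (2 ^ (c / 2) - k) + (k - 2 ^ (c / 2))
    unfold uu ww at h
    rw [if_neg hc, if_neg hc, pow_zero, mul_one] at h
    rcases le_total k (2 ^ (c / 2)) with h2 | h2
    · rw [Nat.sub_eq_zero_of_le h2, add_zero]
      have h3 : ((2 ^ (c / 2) - k : ℕ) : ℤ) = -((k : ℤ) - 2 ^ (c / 2)) := by
        rw [Nat.cast_sub h2]
        push_cast
        ring
      have h4 : (q : ℤ) ∣ ((2 ^ (c / 2) - k : ℕ) : ℤ) := by
        rw [h3]
        exact (dvd_neg).2 h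
      exact_mod_cast h4
    · rw [Nat.sub_eq_zero_of_le h2, zero_add]
      have h3 : ((k - 2 ^ (c / 2) : ℕ) : ℤ) = (k : ℤ) - 2 ^ (c / 2) := by
        rw [Nat.cast_sub h2]
        push_cast
        rfl
      rw [← h3] at h
      exact_mod_cast h

theorem chk1_spec {L M : ℕ} (hM : Sm L M) (hL : 2 < L) {k c : ℕ} (hk : 1 ≤ k) (h : chk1 M k c = true) :
    Gd L k (uu c) (ww c) := by
  intro q hq _ hd
  have h1 := nOf_spec hk hd
  unfold chk1 at h
  rw [fz_eq] at h
  rcases ifB_true h with ⟨h2, _⟩ | ⟨_, h2⟩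
  · have h3 := Nat.eq_of_beq_eq_true h2
    rw [h3] at h1
    exact absurd (Nat.dvd_one.1 h1) hq.one_lt.ne'
  · exact chkG_spec hM hL pw1_spec h2 hq h1

private theorem pwK_spec (kd : ℕ) : ∀ n b e, pwK kd n b e ≡ b ^ e [MOD n] := by
  intro n b e
  unfold pwK
  cases Nat.beq kd (nat_lit 0)
  · change ifB (Nat.beq kd (nat_lit 1)) (pw2 (nat_lit 4) (nat_lit 32)) (pw2 (nat_lit 2) (nat_lit 64)) n b e ≡ _ [MOD n]
    cases Nat.beq kd (nat_lit 1)
    · exact pw2_spec (by norm_num) (by norm_num) n b e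
    · exact pw2_spec (by norm_num) (by norm_num) n b e
  · exact pw2_spec (by norm_num) (by norm_num) n b e

theorem chk2_spec {L M : ℕ} (hM : Sm L M) (hL : 2 < L) {k h : ℕ} (hk : 1 ≤ k) (hc : chk2 M k h = true) :
    Gd L k (uu (h % 65536)) (ww (h % 65536)) := by
  intro q hq _ hd
  have h1 := nOf_spec hk hd
  unfold chk2 at hc
  rw [fz_eq, fz_eq] at hc
  exact chkG_spec hM hL (pwK_spec _) hc hq h1

/-- some good exponent -/
def Good (L k : ℕ) : Prop := ∃ u w : ℕ, (u = 0 ∨ w = 0) ∧ Gd L k u w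

theorem memB_spec {k : ℕ} : ∀ {l : List ℕ}, memB k l = true → k ∈ l := by
  intro l
  induction l with
  | nil => intro h; exact absurd h (by simp [memB])
  | cons x l ih =>
    intro h
    have h1 : memB k (x :: l) = ifB (Nat.beq x k) true (memB k l) := rfl
    rw [h1] at h
    rcases ifB_true h with ⟨h2, _⟩ | ⟨_, h2⟩
    · rw [Nat.eq_of_beq_eq_true h2]
      exact List.mem_cons_self
    · exact List.mem_cons_of_mem _ (ih h2)

private theorem run_nil (ex : List ℕ) (M f k cs : ℕ) : run ex M (f + 1) k cs [] = fz (Nat.mod cs (nat_lit 256)) fun c =>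
    ifB (Nat.beq c (nat_lit 0)) false
      (ifB (chk1 M k c) (fz (Nat.add k (nat_lit 2)) fun k' => fz (Nat.div cs (nat_lit 256)) fun cs' => run ex M f k' cs' []) false) :=
  rfl

private theorem run_cons (ex : List ℕ) (M f k cs h : ℕ) (hs : List ℕ) :
    run ex M (f + 1) k cs (h :: hs) = fz (Nat.mod cs (nat_lit 256)) fun c =>
    ifB (Nat.beq c (nat_lit 0))
      (ifB (chkE ex M k h) (fz (Nat.add k (nat_lit 2)) fun k' => fz (Nat.div cs (nat_lit 256)) fun cs' => run ex M f k' cs' hs) false)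
      (ifB (chk1 M k c) (fz (Nat.add k (nat_lit 2)) fun k' => fz (Nat.div cs (nat_lit 256)) fun cs' => run ex M f k' cs' (h :: hs)) false) :=
  rfl

theorem run_spec {L M : ℕ} (hM : Sm L M) (hL : 2 < L) {ex : List ℕ} : ∀ (f k cs : ℕ) (hs : List ℕ), 1 ≤ k →
    run ex M f k cs hs = true → ∀ i < f, k + 2 * i ∈ ex ∨ Good L (k + 2 * i) := by
  intro f
  induction f with
  | zero =>
    intro k cs hs _ _ i hi
    exact absurd hi (Nat.not_lt_zero i)
  | succ f ih =>
    intro k cs hs hk h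
    have key : (k ∈ ex ∨ Good L k) ∧ ∃ (cs' : ℕ) (hs' : List ℕ), run ex M f (k + 2) cs' hs' = true := by
      rcases hs with _ | ⟨h0, hs⟩
      · rw [run_nil, fz_eq] at h
        rcases ifB_true h with ⟨_, h1⟩ | ⟨_, h1⟩
        · exact absurd h1 (by simp)
        · obtain ⟨h2, h3⟩ := ifB_and h1
          rw [fz_eq, fz_eq] at h3
          exact ⟨Or.inr ⟨_, _, uw _, chk1_spec hM hL hk h2⟩, _, _, h3⟩
      · rw [run_cons, fz_eq] at h
        rcases ifB_true h with ⟨_, h1⟩ | ⟨_, h1⟩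
        · obtain ⟨h2, h3⟩ := ifB_and h1
          rw [fz_eq, fz_eq] at h3
          refine ⟨?_, _, _, h3⟩
          rcases ifB_true h2 with ⟨_, h4⟩ | ⟨_, h4⟩
          · exact Or.inl (memB_spec h4)
          · exact Or.inr ⟨_, _, uw _, chk2_spec hM hL hk h4⟩
        · obtain ⟨h2, h3⟩ := ifB_and h1
          rw [fz_eq, fz_eq] at h3
          exact ⟨Or.inr ⟨_, _, uw _, chk1_spec hM hL hk h2⟩, _, _, h3⟩
    obtain ⟨hg, cs', hs', hr⟩ := key
    intro i hi
    rcases i with _ | i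
    · exact hg
    · have h1 := ih (k + 2) cs' hs' (by omega) hr i (by omega)
      rw [show k + 2 * (i + 1) = k + 2 + 2 * i by ring]
      exact h1

end Pool.Agent.Helper78.Rsl
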