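import Mathlib
import Pool.Agent.Helper78.Rsl.Defs
import Pool.Agent.Helper78.Rsl.MLit
import Pool.Agent.Helper78.Rsl.Sound

/-!
# Rsl: every prime below `10 ^ 6` divides `MM`
-/

set_option autoImplicit false
set_option maxRecDepth 100000

namespace Pool.Agent.Helper78.Rsl

/-- The product of the primes below `1000`. -/
def P0 : ℕ := 0xbe0f0c31d0243c3e18b15e7eb8fd4a97f3ae4a5a61753efe596658ed204dbc89152cce4f6d45ff31e75e47af0d9ee0769cc2359ed51b3d07670fa3841bfb1ab25c81a32286bc76a00d1099cda6579441ac501c02fc26f0af5f8cc3be08a0bf94463ca1907448cce8674a9e295c0ae0e69e87c82733ac3152cbb92ef1bcbd031323b19855bf71377f659746fb77fab5061f6f26bf8cac3eb81bfac313af73f48414820594f2bbfa1772ed42696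

/-- Every odd number `i, i + 2, …` has a common factor with `P` or divides `m`. -/
noncomputable def mchk (P m : ℕ) (f : ℕ) : ℕ → Bool :=
  Nat.rec (motive := fun _ => ℕ → Bool) (fun _ => true)
    (fun _ ih i => ifB (ifB (Nat.beq (Nat.gcd P i) (nat_lit 1)) (Nat.beq (Nat.mod m i) (nat_lit 0)) true)
      (fz (Nat.add i (nat_lit 2)) ih) false) f

/-- The check of the blocks `b, b + 1, …`. -/
noncomputable def mchkL (P : ℕ) : List ℕ → ℕ → Bool :=
  List.rec (motive := fun _ => ℕ → Bool) (fun _ => true)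
    (fun m _ ih i => ifB (fz m fun m => mchk P m (nat_lit 6250) i) (fz (Nat.add i (nat_lit 12500)) ih) false)

theorem tM : mchkL P0 mmL 1 = true := by decide +kernel

theorem tP : Nat.mod MM P0 = 0 := by decide +kernel

private theorem mchk_spec {P m : ℕ} : ∀ (f i : ℕ), mchk P m f i = true → ∀ j < f,
    Nat.gcd P (i + 2 * j) ≠ 1 ∨ (i + 2 * j) ∣ m := by
  intro f
  induction f with
  | zero =>
    intro i _ j hj
    exact absurd hj (Nat.not_lt_zero j)
  | succ f ih =>
    intro i h j hj
    have h1 : mchk P m (f + 1) i = ifB (ifB (Nat.beq (Nat.gcd P i) (nat_lit 1)) (Nat.beq (Nat.mod m i) (nat_lit 0)) true)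
      (fz (Nat.add i (nat_lit 2)) (mchk P m f)) false := rfl
    rw [h1] at h
    obtain ⟨h2, h3⟩ := ifB_and h
    rw [fz_eq] at h3
    rcases j with _ | j
    · rw [mul_zero, add_zero]
      rcases ifB_true h2 with ⟨_, h4⟩ | ⟨h4, _⟩
      · exact Or.inr (Nat.dvd_of_mod_eq_zero (Nat.eq_of_beq_eq_true h4))
      · exact Or.inl (Nat.ne_of_beq_eq_false h4)
    · have h4 := ih (i + 2) h3 j (by omega)
      rw [show i + 2 * (j + 1) = i + 2 + 2 * j by ring]
      exact h4

private theorem mchkL_spec {P : ℕ} : ∀ (ms : List ℕ) (i : ℕ), mchkL P ms i = true → ∀ b < ms.length, ∀ j < 6250,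
    Nat.gcd P (i + 12500 * b + 2 * j) ≠ 1 ∨ (i + 12500 * b + 2 * j) ∣ prL ms := by
  intro ms
  induction ms with
  | nil =>
    intro i _ b hb
    exact absurd hb (Nat.not_lt_zero b)
  | cons m ms ih =>
    intro i h b hb j hj
    have h1 : mchkL P (m :: ms) i = ifB (fz m fun m => mchk P m (nat_lit 6250) i) (fz (Nat.add i (nat_lit 12500)) (mchkL P ms)) false :=
      rfl
    rw [h1] at h
    obtain ⟨h2, h3⟩ := ifB_and h
    rw [fz_eq] at h2 h3
    have h5 : prL (m :: ms) = m * prL ms := rfl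
    rcases b with _ | b
    · rcases mchk_spec 6250 i h2 j hj with h4 | h4
      · left
        rw [mul_zero, add_zero]
        exact h4
      · right
        rw [mul_zero, add_zero, h5]
        exact Dvd.dvd.mul_right h4 _
    · have h4 := ih (i + 12500) h3 b (by rw [List.length_cons] at hb; omega) j hj
      rw [show i + 12500 * (b + 1) + 2 * j = i + 12500 + 12500 * b + 2 * j by ring, h5]
      rcases h4 with h4 | h4
      · exact Or.inl h4
      · exact Or.inr (Dvd.dvd.mul_left h4 _)

private theorem sm_of {ms : List ℕ} (h : mchkL P0 ms 1 = true) (hP : P0 ∣ prL ms) : Sm (12500 * ms.length) (prL ms) := by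
  intro p hp hlt
  rcases hp.eq_two_or_odd with h2 | h2
  · rw [h2]
    refine dvd_trans ?_ hP
    exact Nat.dvd_of_mod_eq_zero (by decide +kernel)
  · have h3 := mchkL_spec ms 1 h ((p - 1) / 12500) (by omega) ((p - 1) % 12500 / 2) (by omega)
    have h4 : 1 + 12500 * ((p - 1) / 12500) + 2 * ((p - 1) % 12500 / 2) = p := by omega
    rw [h4] at h3
    rcases h3 with h3 | h3
    · refine dvd_trans ?_ hP
      by_contra h5
      exact h3 (Nat.Coprime.symm ((Nat.Prime.coprime_iff_not_dvd hp).2 h5))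
    · exact h3

theorem sm6 : Sm 1000000 MM := sm_of tM (Nat.dvd_of_mod_eq_zero tP)

end Pool.Agent.Helper78.Rsl
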