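import Pool.Agent.Helper78.Rsl.Defs
import Pool.Agent.Helper78.Rsl.MLit

/-!
# Rsl: the check with the product of the primes below `10 ^ 6`
-/

set_option autoImplicit false

namespace Pool.Agent.Helper78.Rsl

/-- The check of a block. -/
noncomputable def runM (ex : List ℕ) (f k cs : ℕ) (hs : List ℕ) : Bool := fz MM fun M => run ex M f k cs hs

end Pool.Agent.Helper78.Rsl
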