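import Mathlib
import Pool.Agent.Helper78.Rsl.MChk
import Pool.Agent.Helper78.Rsl.RunM

/-!
# Rsl: perfect powers
-/

set_option autoImplicit false
set_option maxRecDepth 100000

namespace Pool.Agent.Helper78.Rsl

/-- The perfect powers `k` with the product `m` of the prime exponents and a code. -/
def PT : List (ℕ × ℕ × ℕ) := [
  (9, 2, 6),
  (25, 2, 66),
  (27, 3, 57),
  (49, 2, 114),
  (81, 2, 90),
  (121, 2, 87),
  (125, 3, 52),
  (169, 2, 58),
  (225, 2, 82),
  (243, 5, 37),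
  (289, 2, 46),
  (343, 3, 106),
  (361, 2, 90),
  (441, 2, 71),
  (529, 2, 54),
  (625, 2, 66),
  (729, 6, 46),
  (841, 2, 111),
  (961, 2, 58),
  (1089, 2, 86),
  (1225, 2, 82),
  (1331, 3, 92),
  (1369, 2, 54),
  (1521, 2, 114),
  (1681, 2, 75),
  (1849, 2, 75),
  (2025, 2, 78),
  (2187, 7, 59),
  (2197, 3, 70),
  (2209, 2, 90),
  (2401, 2, 58),
  (2601, 2, 66),
  (2809, 2, 58),
  (3025, 2, 62),
  (3125, 5, 72),
  (3249, 2, 83),
  (3375, 3, 58),
  (3481, 2, 78),
  (3721, 2, 66),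
  (3969, 2, 87),
  (4225, 2, 71),
  (4489, 2, 54),
  (4761, 2, 87),
  (4913, 3, 41),
  (5041, 2, 75),
  (5329, 2, 94),
  (5625, 2, 98),
  (5929, 2, 59),
  (6241, 2, 74),
  (6561, 2, 70),
  (6859, 3, 202),
  (6889, 2, 70),
  (7225, 2, 266),
  (7569, 2, 58),
  (7921, 2, 90),
  (8281, 2, 62),
  (8649, 2, 170),
  (9025, 2, 70),
  (9261, 3, 399),
  (9409, 2, 130),
  (9801, 2, 106),
  (10201, 2, 78),
  (10609, 2, 74),
  (11025, 2, 134),
  (11449, 2, 90),
  (11881, 2, 54),
  (12167, 3, 112),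
  (12321, 2, 110),
  (12769, 2, 106),
  (13225, 2, 94),
  (13689, 2, 78),
  (14161, 2, 78),
  (14641, 2, 66),
  (15129, 2, 54),
  (15625, 6, 142),
  (16129, 2, 75),
  (16641, 2, 66),
  (16807, 5, 294),
  (17161, 2, 62),
  (17689, 2, 74),
  (18225, 2, 42),
  (18769, 2, 79),
  (19321, 2, 82),
  (19683, 3, 74),
  (19881, 2, 110),
  (20449, 2, 54),
  (21025, 2, 62),
  (21609, 2, 74),
  (22201, 2, 78),
  (22801, 2, 79),
  (23409, 2, 155),
  (24025, 2, 86),
  (24389, 3, 17),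
  (24649, 2, 66),
  (25281, 2, 54),
  (25921, 2, 46),
  (26569, 2, 50),
  (27225, 2, 114),
  (27889, 2, 111),
  (28561, 2, 62),
  (29241, 2, 78),
  (29791, 3, 63),
  (29929, 2, 98),
  (30625, 2, 63),
  (31329, 2, 98),
  (32041, 2, 75),
  (32761, 2, 86),
  (33489, 2, 62),
  (34225, 2, 54),
  (34969, 2, 114),
  (35721, 2, 94),
  (35937, 3, 29),
  (36481, 2, 54),
  (37249, 2, 94),
  (38025, 2, 46),
  (38809, 2, 147),
  (39601, 2, 82),
  (40401, 2, 91),
  (41209, 2, 82),
  (42025, 2, 62),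
  (42849, 2, 58),
  (42875, 3, 41),
  (43681, 2, 74),
  (44521, 2, 46),
  (45369, 2, 46),
  (46225, 2, 102),
  (47089, 2, 62),
  (47961, 2, 59),
  (48841, 2, 46),
  (49729, 2, 158),
  (50625, 2, 106),
  (50653, 3, 58),
  (51529, 2, 118),
  (52441, 2, 78),
  (53361, 2, 50),
  (54289, 2, 90),
  (55225, 2, 207),
  (56169, 2, 70),
  (57121, 2, 94),
  (58081, 2, 82),
  (59049, 10, 67),
  (59319, 3, 62),
  (60025, 2, 115),
  (61009, 2, 59),
  (62001, 2, 94),
  (63001, 2, 94),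
  (64009, 2, 106),
  (65025, 2, 66),
  (66049, 2, 138),
  (67081, 2, 83),
  (68121, 2, 206),
  (68921, 3, 68),
  (69169, 2, 70),
  (70225, 2, 82),
  (71289, 2, 142),
  (72361, 2, 90),
  (73441, 2, 54),
  (74529, 2, 82),
  (75625, 2, 50),
  (76729, 2, 78),
  (77841, 2, 75),
  (78125, 7, 52),
  (78961, 2, 98),
  (79507, 3, 62),
  (80089, 2, 54),
  (81225, 2, 119),
  (82369, 2, 58),
  (83521, 2, 62),
  (84681, 2, 102),
  (85849, 2, 94),
  (87025, 2, 58),
  (88209, 2, 78),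
  (89401, 2, 50),
  (90601, 2, 106),
  (91125, 3, 11),
  (91809, 2, 66),
  (93025, 2, 46),
  (94249, 2, 46),
  (95481, 2, 58),
  (96721, 2, 94),
  (97969, 2, 67),
  (99225, 2, 74),
  (100489, 2, 247),
  (101761, 2, 70),
  (103041, 2, 74),
  (103823, 3, 41),
  (104329, 2, 63),
  (105625, 2, 94),
  (106929, 2, 78),
  (108241, 2, 62),
  (109561, 2, 62),
  (110889, 2, 70),
  (112225, 2, 99),
  (113569, 2, 86),
  (114921, 2, 78),
  (116281, 2, 66),
  (117649, 6, 50),
  (119025, 2, 127),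
  (120409, 2, 78),
  (121801, 2, 94),
  (123201, 2, 70),
  (124609, 2, 66),
  (126025, 2, 59),
  (127449, 2, 58),
  (128881, 2, 66),
  (130321, 2, 90),
  (131769, 2, 70),
  (132651, 3, 70),
  (133225, 2, 74),
  (134689, 2, 147),
  (136161, 2, 50),
  (137641, 2, 58),
  (139129, 2, 107),
  (140625, 2, 90),
  (142129, 2, 98),
  (143641, 2, 58),
  (145161, 2, 150),
  (146689, 2, 146),
  (148225, 2, 55),
  (148877, 3, 53),
  (149769, 2, 62),
  (151321, 2, 66),
  (152881, 2, 46),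
  (154449, 2, 98),
  (156025, 2, 46),
  (157609, 2, 90),
  (159201, 2, 46),
  (160801, 2, 79),
  (161051, 5, 93),
  (162409, 2, 58),
  (164025, 2, 59),
  (165649, 2, 87),
  (166375, 3, 63),
  (167281, 2, 54),
  (168921, 2, 66),
  (170569, 2, 50),
  (172225, 2, 98),
  (173889, 2, 70),
  (175561, 2, 74),
  (177147, 11, 41),
  (177241, 2, 134),
  (178929, 2, 78),
  (180625, 2, 114),
  (182329, 2, 46),
  (184041, 2, 74),
  (185193, 3, 23),
  (185761, 2, 46),
  (187489, 2, 146),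
  (189225, 2, 86),
  (190969, 2, 82),
  (192721, 2, 50),
  (194481, 2, 46),
  (196249, 2, 54),
  (198025, 2, 90),
  (199809, 2, 106),
  (201601, 2, 70),
  (203401, 2, 70),
  (205209, 2, 90),
  (205379, 3, 160),
  (207025, 2, 74),
  (208849, 2, 146),
  (210681, 2, 54),
  (212521, 2, 74),
  (214369, 2, 155),
  (216225, 2, 94),
  (218089, 2, 66),
  (219961, 2, 70),
  (221841, 2, 66),
  (223729, 2, 87),
  (225625, 2, 58),
  (226981, 3, 158),
  (227529, 2, 82),
  (229441, 2, 66),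
  (231361, 2, 110),
  (233289, 2, 114),
  (235225, 2, 90),
  (237169, 2, 54),
  (239121, 2, 46),
  (241081, 2, 74),
  (243049, 2, 66),
  (245025, 2, 78),
  (247009, 2, 98),
  (249001, 2, 131),
  (250047, 3, 68),
  (251001, 2, 54),
  (253009, 2, 46),
  (255025, 2, 119),
  (257049, 2, 79),
  (259081, 2, 78),
  (261121, 2, 70),
  (263169, 2, 59),
  (265225, 2, 82),
  (267289, 2, 94),
  (269361, 2, 86),
  (271441, 2, 46),
  (273529, 2, 74),
  (274625, 3, 17),
  (275625, 2, 90),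
  (277729, 2, 134),
  (279841, 2, 163),
  (281961, 2, 46),
  (284089, 2, 86),
  (286225, 2, 63),
  (288369, 2, 67),
  (290521, 2, 66),
  (292681, 2, 74),
  (294849, 2, 54),
  (297025, 2, 46),
  (299209, 2, 63),
  (300763, 3, 74),
  (301401, 2, 51),
  (303601, 2, 50),
  (305809, 2, 54),
  (308025, 2, 62),
  (310249, 2, 54),
  (312481, 2, 74),
  (314721, 2, 46),
  (316969, 2, 54),
  (319225, 2, 78),
  (321489, 2, 74),
  (323761, 2, 86),
  (326041, 2, 54),
  (328329, 2, 74),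
  (328509, 3, 98),
  (330625, 2, 106),
  (332929, 2, 142),
  (335241, 2, 78),
  (337561, 2, 74),
  (339889, 2, 138),
  (342225, 2, 70),
  (344569, 2, 170),
  (346921, 2, 74),
  (349281, 2, 78),
  (351649, 2, 71),
  (354025, 2, 66),
  (356409, 2, 54),
  (357911, 3, 29),
  (358801, 2, 82),
  (361201, 2, 118),
  (363609, 2, 82),
  (366025, 2, 54),
  (368449, 2, 62),
  (370881, 2, 66),
  (371293, 5, 55),
  (373321, 2, 78),
  (375769, 2, 70),
  (378225, 2, 86),
  (380689, 2, 58),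
  (383161, 2, 222),
  (385641, 2, 102),
  (388129, 2, 59),
  (389017, 3, 83),
  (390625, 2, 122),
  (393129, 2, 66),
  (395641, 2, 70),
  (398161, 2, 98),
  (400689, 2, 58),
  (403225, 2, 59),
  (405769, 2, 122),
  (408321, 2, 62),
  (410881, 2, 90),
  (413449, 2, 74),
  (416025, 2, 70),
  (418609, 2, 66),
  (421201, 2, 55),
  (421875, 3, 23),
  (423801, 2, 67),
  (426409, 2, 66),
  (429025, 2, 70),
  (431649, 2, 70),
  (434281, 2, 98),
  (436921, 2, 70),
  (439569, 2, 47),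
  (442225, 2, 62),
  (444889, 2, 127),
  (447561, 2, 78),
  (450241, 2, 70),
  (452929, 2, 62),
  (455625, 2, 114),
  (456533, 3, 17),
  (458329, 2, 66),
  (461041, 2, 82),
  (463761, 2, 54),
  (466489, 2, 79),
  (469225, 2, 82),
  (471969, 2, 50),
  (474721, 2, 54),
  (477481, 2, 55),
  (480249, 2, 66),
  (483025, 2, 71),
  (485809, 2, 78),
  (488601, 2, 63),
  (491401, 2, 74),
  (493039, 3, 39),
  (494209, 2, 126),
  (497025, 2, 54),
  (499849, 2, 82),
  (502681, 2, 67),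
  (505521, 2, 75),
  (508369, 2, 106)]

/-- The check of `k` with the code `h`, the number to be checked may be `1`. -/
noncomputable def chk3 (M k h : ℕ) : Bool := ifB (Nat.beq (nOf k (Nat.mod h (nat_lit 65536))) (nat_lit 1)) true (chk2 M k h)

/-- The check of a table. -/
noncomputable def chkT (M : ℕ) : List (ℕ × ℕ × ℕ) → Bool :=
  List.rec (motive := fun _ => Bool) true (fun t _ ih => ifB (chk3 M t.1 t.2.2)
    (ifB (Nat.beq (Nat.gcd (Nat.div (Nat.mod t.2.2 (nat_lit 65536)) (nat_lit 2)) t.2.1) (nat_lit 1)) ih false) false)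

/-- Entry of a key. -/
noncomputable def look (v : ℕ) : List (ℕ × ℕ × ℕ) → ℕ × ℕ :=
  List.rec (motive := fun _ => ℕ × ℕ) (1, 0) (fun t _ ih => ifB (Nat.beq t.1 v) t.2 ih)

/-- All odd numbers `e, e + 2, …` (`f` of them): `e ^ r` is in the table. -/
noncomputable def covC (r f : ℕ) : ℕ → Bool :=
  Nat.rec (motive := fun _ => ℕ → Bool) (fun _ => true)
    (fun _ ih e => ifB (fz (Nat.pow e r) fun v => Nat.beq (Nat.mod (look v PT).1 r) (nat_lit 0)) (fz (Nat.add e (nat_lit 2)) ih) false) f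

theorem tPT : (fz MM fun M => chkT M PT) = true := by decide +kernel

theorem c2 : covC 2 356 3 = true := by decide +kernel

theorem c3 : covC 3 39 3 = true := by decide +kernel

theorem c5 : covC 5 6 3 = true := by decide +kernel

theorem c7 : covC 7 2 3 = true := by decide +kernel

theorem c11 : covC 11 1 3 = true := by decide +kernel

private theorem chk3_spec {L M : ℕ} (hM : Sm L M) (hL : 2 < L) {k h : ℕ} (hk : 1 ≤ k) (hc : chk3 M k h = true) :
    Gd L k (uu (h % 65536)) (ww (h % 65536)) := by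
  rcases ifB_true hc with ⟨h1, _⟩ | ⟨_, h1⟩
  · intro q hq _ hd
    have h2 := nOf_spec hk hd
    have h3 : nOf k (h % 65536) = 1 := Nat.eq_of_beq_eq_true h1
    rw [h3] at h2
    exact absurd (Nat.dvd_one.1 h2) hq.one_lt.ne'
  · exact chk2_spec hM hL hk h1

private theorem chkT_spec {L M : ℕ} (hM : Sm L M) (hL : 2 < L) : ∀ {l : List (ℕ × ℕ × ℕ)}, chkT M l = true →
    ∀ t ∈ l, 1 ≤ t.1 → Gd L t.1 (uu (t.2.2 % 65536)) (ww (t.2.2 % 65536)) ∧
      Nat.Coprime (uu (t.2.2 % 65536) + ww (t.2.2 % 65536)) t.2.1 := by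
  intro l
  induction l with
  | nil =>
    intro _ t ht
    exact absurd ht List.not_mem_nil
  | cons a l ih =>
    intro h t ht h1
    have h2 : chkT M (a :: l) = ifB (chk3 M a.1 a.2.2)
      (ifB (Nat.beq (Nat.gcd (Nat.div (Nat.mod a.2.2 (nat_lit 65536)) (nat_lit 2)) a.2.1) (nat_lit 1)) (chkT M l) false) false := rfl
    rw [h2] at h
    obtain ⟨h3, h4⟩ := ifB_and h
    obtain ⟨h5, h6⟩ := ifB_and h4
    rcases List.mem_cons.1 ht with h7 | h7
    · rw [h7] at h1 ⊢
      refine ⟨chk3_spec hM hL h1 h3, ?_⟩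
      rw [uw_add]
      exact Nat.eq_of_beq_eq_true h5
    · exact ih h6 t h7 h1

private theorem look_spec (v : ℕ) : ∀ (l : List (ℕ × ℕ × ℕ)), look v l = (1, 0) ∨ (v, look v l) ∈ l := by
  intro l
  induction l with
  | nil => exact Or.inl rfl
  | cons a l ih =>
    have h : look v (a :: l) = ifB (Nat.beq a.1 v) a.2 (look v l) := rfl
    rw [h]
    cases hb : Nat.beq a.1 v
    · change look v l = (1, 0) ∨ (v, look v l) ∈ a :: l
      rcases ih with h1 | h1
      · exact Or.inl h1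
      · exact Or.inr (List.mem_cons_of_mem _ h1)
    · change a.2 = (1, 0) ∨ (v, a.2) ∈ a :: l
      right
      have h1 := Nat.eq_of_beq_eq_true hb
      rw [← h1]
      exact List.mem_cons_self

private theorem covC_spec {r : ℕ} : ∀ (f e : ℕ), covC r f e = true → ∀ j < f, r ∣ (look ((e + 2 * j) ^ r) PT).1 := by
  intro f
  induction f with
  | zero =>
    intro e _ j hj
    exact absurd hj (Nat.not_lt_zero j)
  | succ f ih =>
    intro e h j hj
    have h1 : covC r (f + 1) e = ifB (fz (Nat.pow e r) fun v => Nat.beq (Nat.mod (look v PT).1 r) (nat_lit 0))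
      (fz (Nat.add e (nat_lit 2)) (covC r f)) false := rfl
    rw [h1] at h
    obtain ⟨h2, h3⟩ := ifB_and h
    rw [fz_eq] at h2 h3
    rcases j with _ | j
    · rw [mul_zero, add_zero]
      exact Nat.dvd_of_mod_eq_zero (Nat.eq_of_beq_eq_true h2)
    · have h4 := ih (e + 2) h3 j (by omega)
      rw [show e + 2 * (j + 1) = e + 2 + 2 * j by ring]
      exact h4

/-- every perfect power is in the table -/
theorem pp_look {k r e : ℕ} (hk : Odd k) (hk1 : k ≠ 1) (hk2 : k < 509203) (hr : r ∈ ({2, 3, 5, 7, 11} : Finset ℕ))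
    (he : k = e ^ r) : r ∣ (look k PT).1 := by
  have hr0 : r ≠ 0 := by
    rintro rfl
    revert hr
    decide
  have he1 : Odd e := by
    rcases Nat.even_or_odd e with h | h
    · exfalso
      have h2 : Even (e ^ r) := (Nat.even_pow.2 ⟨h, hr0⟩)
      rw [← he] at h2
      exact (Nat.not_even_iff_odd.2 hk) h2
    · exact h
  have he3 : 3 ≤ e := by
    have h2 : e ≠ 1 := by
      rintro rfl
      rw [one_pow] at he
      exact hk1 he
    obtain ⟨s, rfl⟩ := he1
    omega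
  obtain ⟨j, rfl⟩ : ∃ j, e = 3 + 2 * j := by
    obtain ⟨s, rfl⟩ := he1
    exact ⟨s - 1, by omega⟩
  have key : ∀ b : ℕ, (3 + 2 * b) ^ r ≥ 509203 → j < b := by
    intro b hb
    by_contra hge
    push Not at hge
    have h1 : (3 + 2 * b) ^ r ≤ (3 + 2 * j) ^ r := Nat.pow_le_pow_left (by omega) r
    omega
  rw [he]
  simp only [Finset.mem_insert, Finset.mem_singleton] at hr
  rcases hr with rfl | rfl | rfl | rfl | rfl
  · exact covC_spec 356 3 c2 j (key 356 (by norm_num))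
  · exact covC_spec 39 3 c3 j (key 39 (by norm_num))
  · exact covC_spec 6 3 c5 j (key 6 (by norm_num))
  · exact covC_spec 2 3 c7 j (key 2 (by norm_num))
  · exact covC_spec 1 3 c11 j (key 1 (by norm_num))

/-- a good exponent which is allowed also for perfect powers -/
def GoodP (L k : ℕ) : Prop := ∃ u w : ℕ, (u = 0 ∨ w = 0) ∧ Gd L k u w ∧
  ∀ r ∈ ({2, 3, 5, 7, 11} : Finset ℕ), (∃ e, k = e ^ r) → ¬ r ∣ u + w

theorem goodP_pp {k : ℕ} (hk : Odd k) (hk1 : k ≠ 1) (hk2 : k < 509203) {r e : ℕ} (hr : r ∈ ({2, 3, 5, 7, 11} : Finset ℕ))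
    (he : k = e ^ r) : GoodP 1000000 k := by
  have h1 := pp_look hk hk1 hk2 hr he
  have hr1 : ∀ r ∈ ({2, 3, 5, 7, 11} : Finset ℕ), r ≠ 1 := by decide
  have h2 : (k, look k PT) ∈ PT := by
    rcases look_spec k PT with h | h
    · rw [h] at h1
      exact absurd (Nat.dvd_one.1 h1) (hr1 r hr)
    · exact h
  have h3 := tPT
  rw [fz_eq] at h3
  obtain ⟨h4, h5⟩ := chkT_spec sm6 (by norm_num) h3 _ h2 hk.pos
  refine ⟨_, _, uw _, h4, ?_⟩
  rintro r' hr' ⟨e', he'⟩ hd
  have h6 := pp_look hk hk1 hk2 hr' he'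
  have h7 := Nat.dvd_gcd hd h6
  have h8 : Nat.gcd (uu ((look k PT).2 % 65536) + ww ((look k PT).2 % 65536)) (look k PT).1 = 1 := h5
  rw [h8] at h7
  exact hr1 r' hr' (Nat.dvd_one.1 h7)

end Pool.Agent.Helper78.Rsl
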