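import Mathlib
import Pool.Agent.Helper78.Rsl.PP
import Pool.Agent.Helper78.Rsl.NoCover
import Pool.Agent.Helper78.Rsl.T00
import Pool.Agent.Helper78.Rsl.T01
import Pool.Agent.Helper78.Rsl.T02
import Pool.Agent.Helper78.Rsl.T03
import Pool.Agent.Helper78.Rsl.T04
import Pool.Agent.Helper78.Rsl.T05
import Pool.Agent.Helper78.Rsl.T06
import Pool.Agent.Helper78.Rsl.T07
import Pool.Agent.Helper78.Rsl.T08
import Pool.Agent.Helper78.Rsl.T09
import Pool.Agent.Helper78.Rsl.T10
import Pool.Agent.Helper78.Rsl.T11
import Pool.Agent.Helper78.Rsl.T12
import Pool.Agent.Helper78.Rsl.T13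
import Pool.Agent.Helper78.Rsl.T14
import Pool.Agent.Helper78.Rsl.T15

/-!
# Rsl: a good exponent for every multiplier
-/

set_option autoImplicit false

namespace Pool.Agent.Helper78.Rsl

private theorem blk {f k cs : ℕ} {hs : List ℕ} (h : runM [] f k cs hs = true) (hk : 1 ≤ k) :
    ∀ i < f, Good 1000000 (k + 2 * i) := by
  unfold runM at h
  rw [fz_eq] at h
  intro i hi
  rcases run_spec sm6 (by norm_num) f k cs hs hk h i hi with h1 | h1
  · exact absurd h1 List.not_mem_nil
  · exact h1

private theorem g00 : ∀ b < 16, ∀ i < 1000, Good 1000000 ((1 + 2000 * b) + 2 * i) := by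
  intro b hb i hi
  interval_cases b
  · exact blk t000 (by norm_num) i hi
  · exact blk t001 (by norm_num) i hi
  · exact blk t002 (by norm_num) i hi
  · exact blk t003 (by norm_num) i hi
  · exact blk t004 (by norm_num) i hi
  · exact blk t005 (by norm_num) i hi
  · exact blk t006 (by norm_num) i hi
  · exact blk t007 (by norm_num) i hi
  · exact blk t008 (by norm_num) i hi
  · exact blk t009 (by norm_num) i hi
  · exact blk t010 (by norm_num) i hi
  · exact blk t011 (by norm_num) i hi
  · exact blk t012 (by norm_num) i hi
  · exact blk t013 (by norm_num) i hi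
  · exact blk t014 (by norm_num) i hi
  · exact blk t015 (by norm_num) i hi

private theorem g01 : ∀ b < 16, ∀ i < 1000, Good 1000000 ((32001 + 2000 * b) + 2 * i) := by
  intro b hb i hi
  interval_cases b
  · exact blk t016 (by norm_num) i hi
  · exact blk t017 (by norm_num) i hi
  · exact blk t018 (by norm_num) i hi
  · exact blk t019 (by norm_num) i hi
  · exact blk t020 (by norm_num) i hi
  · exact blk t021 (by norm_num) i hi
  · exact blk t022 (by norm_num) i hi
  · exact blk t023 (by norm_num) i hi
  · exact blk t024 (by norm_num) i hi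
  · exact blk t025 (by norm_num) i hi
  · exact blk t026 (by norm_num) i hi
  · exact blk t027 (by norm_num) i hi
  · exact blk t028 (by norm_num) i hi
  · exact blk t029 (by norm_num) i hi
  · exact blk t030 (by norm_num) i hi
  · exact blk t031 (by norm_num) i hi

private theorem g02 : ∀ b < 16, ∀ i < 1000, Good 1000000 ((64001 + 2000 * b) + 2 * i) := by
  intro b hb i hi
  interval_cases b
  · exact blk t032 (by norm_num) i hi
  · exact blk t033 (by norm_num) i hi
  · exact blk t034 (by norm_num) i hi
  · exact blk t035 (by norm_num) i hi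
  · exact blk t036 (by norm_num) i hi
  · exact blk t037 (by norm_num) i hi
  · exact blk t038 (by norm_num) i hi
  · exact blk t039 (by norm_num) i hi
  · exact blk t040 (by norm_num) i hi
  · exact blk t041 (by norm_num) i hi
  · exact blk t042 (by norm_num) i hi
  · exact blk t043 (by norm_num) i hi
  · exact blk t044 (by norm_num) i hi
  · exact blk t045 (by norm_num) i hi
  · exact blk t046 (by norm_num) i hi
  · exact blk t047 (by norm_num) i hi

private theorem g03 : ∀ b < 16, ∀ i < 1000, Good 1000000 ((96001 + 2000 * b) + 2 * i) := by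
  intro b hb i hi
  interval_cases b
  · exact blk t048 (by norm_num) i hi
  · exact blk t049 (by norm_num) i hi
  · exact blk t050 (by norm_num) i hi
  · exact blk t051 (by norm_num) i hi
  · exact blk t052 (by norm_num) i hi
  · exact blk t053 (by norm_num) i hi
  · exact blk t054 (by norm_num) i hi
  · exact blk t055 (by norm_num) i hi
  · exact blk t056 (by norm_num) i hi
  · exact blk t057 (by norm_num) i hi
  · exact blk t058 (by norm_num) i hi
  · exact blk t059 (by norm_num) i hi
  · exact blk t060 (by norm_num) i hi
  · exact blk t061 (by norm_num) i hi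
  · exact blk t062 (by norm_num) i hi
  · exact blk t063 (by norm_num) i hi

private theorem g04 : ∀ b < 16, ∀ i < 1000, Good 1000000 ((128001 + 2000 * b) + 2 * i) := by
  intro b hb i hi
  interval_cases b
  · exact blk t064 (by norm_num) i hi
  · exact blk t065 (by norm_num) i hi
  · exact blk t066 (by norm_num) i hi
  · exact blk t067 (by norm_num) i hi
  · exact blk t068 (by norm_num) i hi
  · exact blk t069 (by norm_num) i hi
  · exact blk t070 (by norm_num) i hi
  · exact blk t071 (by norm_num) i hi
  · exact blk t072 (by norm_num) i hi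
  · exact blk t073 (by norm_num) i hi
  · exact blk t074 (by norm_num) i hi
  · exact blk t075 (by norm_num) i hi
  · exact blk t076 (by norm_num) i hi
  · exact blk t077 (by norm_num) i hi
  · exact blk t078 (by norm_num) i hi
  · exact blk t079 (by norm_num) i hi

private theorem g05 : ∀ b < 16, ∀ i < 1000, Good 1000000 ((160001 + 2000 * b) + 2 * i) := by
  intro b hb i hi
  interval_cases b
  · exact blk t080 (by norm_num) i hi
  · exact blk t081 (by norm_num) i hi
  · exact blk t082 (by norm_num) i hi
  · exact blk t083 (by norm_num) i hi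
  · exact blk t084 (by norm_num) i hi
  · exact blk t085 (by norm_num) i hi
  · exact blk t086 (by norm_num) i hi
  · exact blk t087 (by norm_num) i hi
  · exact blk t088 (by norm_num) i hi
  · exact blk t089 (by norm_num) i hi
  · exact blk t090 (by norm_num) i hi
  · exact blk t091 (by norm_num) i hi
  · exact blk t092 (by norm_num) i hi
  · exact blk t093 (by norm_num) i hi
  · exact blk t094 (by norm_num) i hi
  · exact blk t095 (by norm_num) i hi

private theorem g06 : ∀ b < 16, ∀ i < 1000, Good 1000000 ((192001 + 2000 * b) + 2 * i) := by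
  intro b hb i hi
  interval_cases b
  · exact blk t096 (by norm_num) i hi
  · exact blk t097 (by norm_num) i hi
  · exact blk t098 (by norm_num) i hi
  · exact blk t099 (by norm_num) i hi
  · exact blk t100 (by norm_num) i hi
  · exact blk t101 (by norm_num) i hi
  · exact blk t102 (by norm_num) i hi
  · exact blk t103 (by norm_num) i hi
  · exact blk t104 (by norm_num) i hi
  · exact blk t105 (by norm_num) i hi
  · exact blk t106 (by norm_num) i hi
  · exact blk t107 (by norm_num) i hi
  · exact blk t108 (by norm_num) i hi
  · exact blk t109 (by norm_num) i hi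
  · exact blk t110 (by norm_num) i hi
  · exact blk t111 (by norm_num) i hi

private theorem g07 : ∀ b < 16, ∀ i < 1000, Good 1000000 ((224001 + 2000 * b) + 2 * i) := by
  intro b hb i hi
  interval_cases b
  · exact blk t112 (by norm_num) i hi
  · exact blk t113 (by norm_num) i hi
  · exact blk t114 (by norm_num) i hi
  · exact blk t115 (by norm_num) i hi
  · exact blk t116 (by norm_num) i hi
  · exact blk t117 (by norm_num) i hi
  · exact blk t118 (by norm_num) i hi
  · exact blk t119 (by norm_num) i hi
  · exact blk t120 (by norm_num) i hi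
  · exact blk t121 (by norm_num) i hi
  · exact blk t122 (by norm_num) i hi
  · exact blk t123 (by norm_num) i hi
  · exact blk t124 (by norm_num) i hi
  · exact blk t125 (by norm_num) i hi
  · exact blk t126 (by norm_num) i hi
  · exact blk t127 (by norm_num) i hi

private theorem g08 : ∀ b < 16, ∀ i < 1000, Good 1000000 ((256001 + 2000 * b) + 2 * i) := by
  intro b hb i hi
  interval_cases b
  · exact blk t128 (by norm_num) i hi
  · exact blk t129 (by norm_num) i hi
  · exact blk t130 (by norm_num) i hi
  · exact blk t131 (by norm_num) i hi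
  · exact blk t132 (by norm_num) i hi
  · exact blk t133 (by norm_num) i hi
  · exact blk t134 (by norm_num) i hi
  · exact blk t135 (by norm_num) i hi
  · exact blk t136 (by norm_num) i hi
  · exact blk t137 (by norm_num) i hi
  · exact blk t138 (by norm_num) i hi
  · exact blk t139 (by norm_num) i hi
  · exact blk t140 (by norm_num) i hi
  · exact blk t141 (by norm_num) i hi
  · exact blk t142 (by norm_num) i hi
  · exact blk t143 (by norm_num) i hi

private theorem g09 : ∀ b < 16, ∀ i < 1000, Good 1000000 ((288001 + 2000 * b) + 2 * i) := by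
  intro b hb i hi
  interval_cases b
  · exact blk t144 (by norm_num) i hi
  · exact blk t145 (by norm_num) i hi
  · exact blk t146 (by norm_num) i hi
  · exact blk t147 (by norm_num) i hi
  · exact blk t148 (by norm_num) i hi
  · exact blk t149 (by norm_num) i hi
  · exact blk t150 (by norm_num) i hi
  · exact blk t151 (by norm_num) i hi
  · exact blk t152 (by norm_num) i hi
  · exact blk t153 (by norm_num) i hi
  · exact blk t154 (by norm_num) i hi
  · exact blk t155 (by norm_num) i hi
  · exact blk t156 (by norm_num) i hi
  · exact blk t157 (by norm_num) i hi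
  · exact blk t158 (by norm_num) i hi
  · exact blk t159 (by norm_num) i hi

private theorem g10 : ∀ b < 16, ∀ i < 1000, Good 1000000 ((320001 + 2000 * b) + 2 * i) := by
  intro b hb i hi
  interval_cases b
  · exact blk t160 (by norm_num) i hi
  · exact blk t161 (by norm_num) i hi
  · exact blk t162 (by norm_num) i hi
  · exact blk t163 (by norm_num) i hi
  · exact blk t164 (by norm_num) i hi
  · exact blk t165 (by norm_num) i hi
  · exact blk t166 (by norm_num) i hi
  · exact blk t167 (by norm_num) i hi
  · exact blk t168 (by norm_num) i hi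
  · exact blk t169 (by norm_num) i hi
  · exact blk t170 (by norm_num) i hi
  · exact blk t171 (by norm_num) i hi
  · exact blk t172 (by norm_num) i hi
  · exact blk t173 (by norm_num) i hi
  · exact blk t174 (by norm_num) i hi
  · exact blk t175 (by norm_num) i hi

private theorem g11 : ∀ b < 16, ∀ i < 1000, Good 1000000 ((352001 + 2000 * b) + 2 * i) := by
  intro b hb i hi
  interval_cases b
  · exact blk t176 (by norm_num) i hi
  · exact blk t177 (by norm_num) i hi
  · exact blk t178 (by norm_num) i hi
  · exact blk t179 (by norm_num) i hi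
  · exact blk t180 (by norm_num) i hi
  · exact blk t181 (by norm_num) i hi
  · exact blk t182 (by norm_num) i hi
  · exact blk t183 (by norm_num) i hi
  · exact blk t184 (by norm_num) i hi
  · exact blk t185 (by norm_num) i hi
  · exact blk t186 (by norm_num) i hi
  · exact blk t187 (by norm_num) i hi
  · exact blk t188 (by norm_num) i hi
  · exact blk t189 (by norm_num) i hi
  · exact blk t190 (by norm_num) i hi
  · exact blk t191 (by norm_num) i hi

private theorem g12 : ∀ b < 16, ∀ i < 1000, Good 1000000 ((384001 + 2000 * b) + 2 * i) := by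
  intro b hb i hi
  interval_cases b
  · exact blk t192 (by norm_num) i hi
  · exact blk t193 (by norm_num) i hi
  · exact blk t194 (by norm_num) i hi
  · exact blk t195 (by norm_num) i hi
  · exact blk t196 (by norm_num) i hi
  · exact blk t197 (by norm_num) i hi
  · exact blk t198 (by norm_num) i hi
  · exact blk t199 (by norm_num) i hi
  · exact blk t200 (by norm_num) i hi
  · exact blk t201 (by norm_num) i hi
  · exact blk t202 (by norm_num) i hi
  · exact blk t203 (by norm_num) i hi
  · exact blk t204 (by norm_num) i hi
  · exact blk t205 (by norm_num) i hi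
  · exact blk t206 (by norm_num) i hi
  · exact blk t207 (by norm_num) i hi

private theorem g13 : ∀ b < 16, ∀ i < 1000, Good 1000000 ((416001 + 2000 * b) + 2 * i) := by
  intro b hb i hi
  interval_cases b
  · exact blk t208 (by norm_num) i hi
  · exact blk t209 (by norm_num) i hi
  · exact blk t210 (by norm_num) i hi
  · exact blk t211 (by norm_num) i hi
  · exact blk t212 (by norm_num) i hi
  · exact blk t213 (by norm_num) i hi
  · exact blk t214 (by norm_num) i hi
  · exact blk t215 (by norm_num) i hi
  · exact blk t216 (by norm_num) i hi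
  · exact blk t217 (by norm_num) i hi
  · exact blk t218 (by norm_num) i hi
  · exact blk t219 (by norm_num) i hi
  · exact blk t220 (by norm_num) i hi
  · exact blk t221 (by norm_num) i hi
  · exact blk t222 (by norm_num) i hi
  · exact blk t223 (by norm_num) i hi

private theorem g14 : ∀ b < 16, ∀ i < 1000, Good 1000000 ((448001 + 2000 * b) + 2 * i) := by
  intro b hb i hi
  interval_cases b
  · exact blk t224 (by norm_num) i hi
  · exact blk t225 (by norm_num) i hi
  · exact blk t226 (by norm_num) i hi
  · exact blk t227 (by norm_num) i hi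
  · exact blk t228 (by norm_num) i hi
  · exact blk t229 (by norm_num) i hi
  · exact blk t230 (by norm_num) i hi
  · exact blk t231 (by norm_num) i hi
  · exact blk t232 (by norm_num) i hi
  · exact blk t233 (by norm_num) i hi
  · exact blk t234 (by norm_num) i hi
  · exact blk t235 (by norm_num) i hi
  · exact blk t236 (by norm_num) i hi
  · exact blk t237 (by norm_num) i hi
  · exact blk t238 (by norm_num) i hi
  · exact blk t239 (by norm_num) i hi

private theorem g15 : ∀ b < 14, ∀ i < 1000, Good 1000000 ((480001 + 2000 * b) + 2 * i) := by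
  intro b hb i hi
  interval_cases b
  · exact blk t240 (by norm_num) i hi
  · exact blk t241 (by norm_num) i hi
  · exact blk t242 (by norm_num) i hi
  · exact blk t243 (by norm_num) i hi
  · exact blk t244 (by norm_num) i hi
  · exact blk t245 (by norm_num) i hi
  · exact blk t246 (by norm_num) i hi
  · exact blk t247 (by norm_num) i hi
  · exact blk t248 (by norm_num) i hi
  · exact blk t249 (by norm_num) i hi
  · exact blk t250 (by norm_num) i hi
  · exact blk t251 (by norm_num) i hi
  · exact blk t252 (by norm_num) i hi
  · exact blk t253 (by norm_num) i hi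

theorem all_good {j : ℕ} (hj : j < 254601) : Good 1000000 (1 + 2 * j) := by
  by_cases h254 : 254000 ≤ j
  · have h := blk t254 (by norm_num) (j - 254000) (by omega)
    rw [show 508001 + 2 * (j - 254000) = 1 + 2 * j by omega] at h
    exact h
  by_cases h0 : j < 16000
  · have h := g00 ((j - 0) / 1000) (by omega) ((j - 0) % 1000) (by omega)
    rw [show 1 + 2000 * ((j - 0) / 1000) + 2 * ((j - 0) % 1000) = 1 + 2 * j by omega] at h
    exact h
  by_cases h1 : j < 32000
  · have h := g01 ((j - 16000) / 1000) (by omega) ((j - 16000) % 1000) (by omega)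
    rw [show 32001 + 2000 * ((j - 16000) / 1000) + 2 * ((j - 16000) % 1000) = 1 + 2 * j by omega] at h
    exact h
  by_cases h2 : j < 48000
  · have h := g02 ((j - 32000) / 1000) (by omega) ((j - 32000) % 1000) (by omega)
    rw [show 64001 + 2000 * ((j - 32000) / 1000) + 2 * ((j - 32000) % 1000) = 1 + 2 * j by omega] at h
    exact h
  by_cases h3 : j < 64000
  · have h := g03 ((j - 48000) / 1000) (by omega) ((j - 48000) % 1000) (by omega)
    rw [show 96001 + 2000 * ((j - 48000) / 1000) + 2 * ((j - 48000) % 1000) = 1 + 2 * j by omega] at h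
    exact h
  by_cases h4 : j < 80000
  · have h := g04 ((j - 64000) / 1000) (by omega) ((j - 64000) % 1000) (by omega)
    rw [show 128001 + 2000 * ((j - 64000) / 1000) + 2 * ((j - 64000) % 1000) = 1 + 2 * j by omega] at h
    exact h
  by_cases h5 : j < 96000
  · have h := g05 ((j - 80000) / 1000) (by omega) ((j - 80000) % 1000) (by omega)
    rw [show 160001 + 2000 * ((j - 80000) / 1000) + 2 * ((j - 80000) % 1000) = 1 + 2 * j by omega] at h
    exact h
  by_cases h6 : j < 112000
  · have h := g06 ((j - 96000) / 1000) (by omega) ((j - 96000) % 1000) (by omega)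
    rw [show 192001 + 2000 * ((j - 96000) / 1000) + 2 * ((j - 96000) % 1000) = 1 + 2 * j by omega] at h
    exact h
  by_cases h7 : j < 128000
  · have h := g07 ((j - 112000) / 1000) (by omega) ((j - 112000) % 1000) (by omega)
    rw [show 224001 + 2000 * ((j - 112000) / 1000) + 2 * ((j - 112000) % 1000) = 1 + 2 * j by omega] at h
    exact h
  by_cases h8 : j < 144000
  · have h := g08 ((j - 128000) / 1000) (by omega) ((j - 128000) % 1000) (by omega)
    rw [show 256001 + 2000 * ((j - 128000) / 1000) + 2 * ((j - 128000) % 1000) = 1 + 2 * j by omega] at h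
    exact h
  by_cases h9 : j < 160000
  · have h := g09 ((j - 144000) / 1000) (by omega) ((j - 144000) % 1000) (by omega)
    rw [show 288001 + 2000 * ((j - 144000) / 1000) + 2 * ((j - 144000) % 1000) = 1 + 2 * j by omega] at h
    exact h
  by_cases h10 : j < 176000
  · have h := g10 ((j - 160000) / 1000) (by omega) ((j - 160000) % 1000) (by omega)
    rw [show 320001 + 2000 * ((j - 160000) / 1000) + 2 * ((j - 160000) % 1000) = 1 + 2 * j by omega] at h
    exact h
  by_cases h11 : j < 192000
  · have h := g11 ((j - 176000) / 1000) (by omega) ((j - 176000) % 1000) (by omega)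
    rw [show 352001 + 2000 * ((j - 176000) / 1000) + 2 * ((j - 176000) % 1000) = 1 + 2 * j by omega] at h
    exact h
  by_cases h12 : j < 208000
  · have h := g12 ((j - 192000) / 1000) (by omega) ((j - 192000) % 1000) (by omega)
    rw [show 384001 + 2000 * ((j - 192000) / 1000) + 2 * ((j - 192000) % 1000) = 1 + 2 * j by omega] at h
    exact h
  by_cases h13 : j < 224000
  · have h := g13 ((j - 208000) / 1000) (by omega) ((j - 208000) % 1000) (by omega)
    rw [show 416001 + 2000 * ((j - 208000) / 1000) + 2 * ((j - 208000) % 1000) = 1 + 2 * j by omega] at h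
    exact h
  by_cases h14 : j < 240000
  · have h := g14 ((j - 224000) / 1000) (by omega) ((j - 224000) % 1000) (by omega)
    rw [show 448001 + 2000 * ((j - 224000) / 1000) + 2 * ((j - 224000) % 1000) = 1 + 2 * j by omega] at h
    exact h
  by_cases h15 : j < 256000
  · have h := g15 ((j - 240000) / 1000) (by omega) ((j - 240000) % 1000) (by omega)
    rw [show 480001 + 2000 * ((j - 240000) / 1000) + 2 * ((j - 240000) % 1000) = 1 + 2 * j by omega] at h
    exact h
  omega

theorem goodP_all {k : ℕ} (hk : Odd k) (hk1 : k ≠ 1) (hk2 : k < 509203) : GoodP 1000000 k := by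
  by_cases h : ∃ r ∈ ({2, 3, 5, 7, 11} : Finset ℕ), ∃ e, k = e ^ r
  · obtain ⟨r, hr, e, hke⟩ := h
    exact goodP_pp hk hk1 hk2 hr hke
  · obtain ⟨j, hj⟩ := hk
    have h1 := all_good (j := j) (by omega)
    rw [show 1 + 2 * j = k by omega] at h1
    obtain ⟨u, w, h2, h3⟩ := h1
    exact ⟨u, w, h2, h3, fun r hr hex _ => h ⟨r, hr, hex⟩⟩

end Pool.Agent.Helper78.Rsl
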